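import Pool.Agent.Helper16.OG.Stmts

/-! Row BIP: growing a bipartite graph by complete bipartite pieces. Typed by helper56. -/

set_option autoImplicit false

namespace Pool.Agent.Helper16.OG

open Finset

open scoped Classical

universe u

namespace RowBIP

/-- one step -/
theorem bip_step {α : Type u} (A B : Finset α) (E : Finset (α × α)) (A' B' : Finset α)
    (hE : E ⊆ A ×ˢ B) (h1 : 2 * A.card + 2 * B.card ≤ E.card + 4)
    (hA : 2 ≤ (A ∩ A').card) (hB : 2 ≤ (B ∩ B').card) :
    2 * (A ∪ A').card + 2 * (B ∪ B').card ≤ (E ∪ A' ×ˢ B').card + 4 := by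
  have h2 : (E ∪ A' ×ˢ B').card = E.card + ((A' ×ˢ B') \ E).card := by
    rw [← Finset.union_sdiff_self_eq_union, Finset.card_union_of_disjoint disjoint_sdiff]
  have h3 : ((A' ×ˢ B') \ (A ×ˢ B)).card ≤ ((A' ×ˢ B') \ E).card :=
    card_le_card (sdiff_subset_sdiff (subset_refl _) hE)
  have h4 : ((A' \ A) ×ˢ B').card + ((A ∩ A') ×ˢ (B' \ B)).card ≤
      ((A' ×ˢ B') \ (A ×ˢ B)).card := by
    rw [← Finset.card_union_of_disjoint]
    · apply card_le_card
      rintro ⟨x, y⟩ h
      simp only [mem_union, mem_product, mem_sdiff, mem_inter] at h ⊢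
      tauto
    · rw [Finset.disjoint_left]
      rintro ⟨x, y⟩ h h'
      simp only [mem_product, mem_sdiff, mem_inter] at h h'
      tauto
  rw [card_product, card_product] at h4
  have h5 : (A ∪ A').card = A.card + (A' \ A).card := by
    rw [← Finset.union_sdiff_self_eq_union, Finset.card_union_of_disjoint disjoint_sdiff]
  have h6 : (B ∪ B').card = B.card + (B' \ B).card := by
    rw [← Finset.union_sdiff_self_eq_union, Finset.card_union_of_disjoint disjoint_sdiff]
  have h7 : 2 ≤ B'.card := hB.trans (card_le_card inter_subset_right)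
  have h8 : (A' \ A).card * 2 ≤ (A' \ A).card * B'.card := Nat.mul_le_mul_left _ h7
  have h9 : 2 * (B' \ B).card ≤ (A ∩ A').card * (B' \ B).card := Nat.mul_le_mul_right _ hA
  omega

theorem bip_grow {α : Type u} (K : Finset α) (A B : α → Finset α)
    (h2 : ∀ k ∈ K, 2 ≤ (A k).card ∧ 2 ≤ (B k).card)
    (hc : ∀ S ⊆ K, S.Nonempty → S ≠ K → ∃ k ∈ S, ∃ l ∈ K, l ∉ S ∧ 2 ≤ (A k ∩ A l).card ∧
      2 ≤ (B k ∩ B l).card) (hK : K.Nonempty) :
    ∀ m, 1 ≤ m → m ≤ K.card → ∃ S ⊆ K, S.card = m ∧ S.Nonempty ∧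
      2 * (S.biUnion A).card + 2 * (S.biUnion B).card ≤
        (S.biUnion (fun k => A k ×ˢ B k)).card + 4 := by
  intro m hm
  induction m, hm using Nat.le_induction with
  | base =>
    intro _
    obtain ⟨k, hk⟩ := hK
    refine ⟨{k}, by simpa using hk, card_singleton _, singleton_nonempty _, ?_⟩
    simp only [singleton_biUnion, card_product]
    obtain ⟨ha, hb⟩ := h2 k hk
    obtain ⟨a, ha'⟩ : ∃ a, (A k).card = a + 2 := ⟨(A k).card - 2, by omega⟩
    obtain ⟨b, hb'⟩ : ∃ b, (B k).card = b + 2 := ⟨(B k).card - 2, by omega⟩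
    rw [ha', hb']
    nlinarith [Nat.zero_le (a * b)]
  | succ m hm ih =>
    intro hmK
    obtain ⟨S, hS, hSm, hSn, hle⟩ := ih (by omega)
    have hne : S ≠ K := by
      rintro rfl
      omega
    obtain ⟨k, hk, l, hl, hlS, hA, hB⟩ := hc S hS hSn hne
    refine ⟨insert l S, insert_subset hl hS, by rw [card_insert_of_notMem hlS, hSm],
      insert_nonempty _ _, ?_⟩
    rw [biUnion_insert, biUnion_insert, biUnion_insert]
    have h3 := bip_step (S.biUnion A) (S.biUnion B) (S.biUnion (fun k => A k ×ˢ B k)) (A l) (B l)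
      (by
        rintro ⟨x, y⟩ h
        simp only [mem_biUnion, mem_product] at h ⊢
        obtain ⟨j, hj, hx, hy⟩ := h
        exact ⟨⟨j, hj, hx⟩, ⟨j, hj, hy⟩⟩) hle
      (hA.trans (card_le_card (inter_subset_inter_right
        (subset_biUnion_of_mem A hk))))
      (hB.trans (card_le_card (inter_subset_inter_right
        (subset_biUnion_of_mem B hk))))
    rw [union_comm (A l), union_comm (B l), union_comm (A l ×ˢ B l)]
    exact h3

end RowBIP

open RowBIP

theorem st_BIP : ST_BIP.{u} := by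
  intro α K A B hK h2 hc
  obtain ⟨S, hS, hSm, -, hle⟩ := bip_grow K A B h2 hc hK K.card hK.card_pos le_rfl
  have : S = K := eq_of_subset_of_card_le hS hSm.ge
  rw [this] at hle
  exact hle

end Pool.Agent.Helper16.OG
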