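import Pool.Agent.Helper16.OG.Stmts

/-! Row C: comparable pairs with gap two. Typed by helper56. -/

set_option autoImplicit false

namespace Pool.Agent.Helper16.OG

open Finset

open scoped Classical

universe u

namespace RowC

variable {P : Type u} [PartialOrder P] [BoundedOrder P] [Fintype P]

omit [BoundedOrder P] in
theorem E_eq (rk : P → ℕ) (i j : ℕ) :
    E rk i j = ∑ x ∈ lv rk i, ∑ z ∈ lv rk j, if x < z then 1 else 0 := by
  unfold E
  rw [card_filter, sum_product]

omit [PartialOrder P] [BoundedOrder P] in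
theorem mem_lv {rk : P → ℕ} {i : ℕ} {x : P} : x ∈ lv rk i ↔ rk x = i := by
  simp [lv]

omit [BoundedOrder P] in
theorem mem_io {x y z : P} : y ∈ io x z ↔ x < y ∧ y < z := by
  simp [io]

/-- the number of elements between two elements with gap two -/
theorem mid_sum {rk : P → ℕ} {n : ℕ} (hT : Thin rk n) (i : ℕ) {x z : P} (hx : rk x = i)
    (hz : rk z = i + 2) :
    (∑ e ∈ lv rk (i + 1), (if x < e then 1 else 0) * (if e < z then 1 else 0)) =
      2 * if x < z then 1 else 0 := by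
  by_cases h : x < z
  · rw [if_pos h, mul_one]
    have h1 : (∑ e ∈ lv rk (i + 1), (if x < e then 1 else 0) * (if e < z then 1 else 0)) =
        ((lv rk (i + 1)).filter (fun e => x < e ∧ e < z)).card := by
      rw [card_filter]
      refine sum_congr rfl fun e _ => ?_
      by_cases h1 : x < e <;> by_cases h2 : e < z <;> simp [h1, h2]
    rw [h1, ← hT.thin x z h (by omega)]
    congr 1
    ext e
    rw [mem_filter, mem_lv, mem_io]
    constructor
    · exact fun h => h.2
    · intro h2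
      refine ⟨?_, h2⟩
      have := hT.mono x e h2.1
      have := hT.mono e z h2.2
      omega
  · rw [if_neg h, mul_zero]
    refine sum_eq_zero fun e _ => ?_
    by_cases h1 : x < e
    · by_cases h2 : e < z
      · exact absurd (h1.trans h2) h
      · simp [h2]
    · simp [h1]

theorem rk_le_top {rk : P → ℕ} {n : ℕ} (hT : Thin rk n) (x : P) : rk x ≤ n + 1 := by
  rcases eq_or_lt_of_le (le_top (a := x)) with h | h
  · rw [h, hT.top]
  · have := hT.mono x ⊤ h
    rw [hT.top] at this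
    omega

theorem below_two {rk : P → ℕ} {n : ℕ} (hT : Thin rk n) (i : ℕ) (hi : 1 ≤ i) {e : P}
    (he : rk e = i + 1) : 2 ≤ ∑ x ∈ lv rk i, if x < e then 1 else 0 := by
  have h0 : ⊥ < e := by
    rw [bot_lt_iff_ne_bot]
    rintro rfl
    rw [hT.bot] at he
    omega
  obtain ⟨y, hy, hry⟩ : ∃ y, y < e ∧ rk y + 2 = rk e := by
    rcases Nat.eq_or_lt_of_le hi with h | h
    · exact ⟨⊥, h0, by rw [hT.bot, he, ← h]⟩
    · obtain ⟨y, -, hy2, hy3⟩ := hT.mid ⊥ e h0 (i - 1) (by rw [hT.bot]; omega) (by omega)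
      exact ⟨y, hy2, by omega⟩
  rw [← card_filter]
  refine (hT.thin y e hy hry.symm).symm.le.trans (card_le_card ?_)
  intro x hx
  rw [mem_io] at hx
  rw [mem_filter, mem_lv]
  refine ⟨?_, hx.2⟩
  have := hT.mono y x hx.1
  have := hT.mono x e hx.2
  omega

theorem above_two {rk : P → ℕ} {n : ℕ} (hT : Thin rk n) (i : ℕ) (hi : i + 2 ≤ n) {e : P}
    (he : rk e = i + 1) : 2 ≤ ∑ z ∈ lv rk (i + 2), if e < z then 1 else 0 := by
  have h0 : e < ⊤ := by
    rw [lt_top_iff_ne_top]
    rintro rfl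
    rw [hT.top] at he
    omega
  obtain ⟨y, hy, hry⟩ : ∃ y, e < y ∧ rk y = rk e + 2 := by
    rcases Nat.eq_or_lt_of_le hi with h | h
    · exact ⟨⊤, h0, by rw [hT.top, he, ← h]⟩
    · obtain ⟨y, hy1, hy2, hy3⟩ := hT.mid e ⊤ h0 (i + 3) (by omega) (by rw [hT.top]; omega)
      exact ⟨y, hy1, by omega⟩
  rw [← card_filter]
  refine (hT.thin e y hy hry).symm.le.trans (card_le_card ?_)
  intro x hx
  rw [mem_io] at hx
  rw [mem_filter, mem_lv]
  refine ⟨?_, hx.1⟩
  have := hT.mono e x hx.1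
  have := hT.mono x y hx.2
  omega

end RowC

open RowC

theorem st_C : ST_C.{u} := by
  intro P _ _ _ n rk hT i hi1 hi2
  set b : P → ℕ := fun e => ∑ x ∈ lv rk i, if x < e then 1 else 0 with hb
  set c : P → ℕ := fun e => ∑ z ∈ lv rk (i + 2), if e < z then 1 else 0 with hc
  have h1 : E rk i (i + 1) = ∑ e ∈ lv rk (i + 1), b e := by
    rw [E_eq, sum_comm]
  have h2 : E rk (i + 1) (i + 2) = ∑ e ∈ lv rk (i + 1), c e := by
    rw [E_eq]
  have h3 : 2 * E rk i (i + 2) = ∑ e ∈ lv rk (i + 1), b e * c e := by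
    have h4 : ∀ e, b e * c e = ∑ x ∈ lv rk i, ∑ z ∈ lv rk (i + 2),
        (if x < e then 1 else 0) * (if e < z then 1 else 0) := by
      intro e
      rw [hb, hc, sum_mul_sum]
    rw [sum_congr rfl fun e _ => h4 e, sum_comm, E_eq, mul_sum]
    refine sum_congr rfl fun x hx => ?_
    rw [sum_comm, mul_sum]
    refine sum_congr rfl fun z hz => ?_
    exact (mid_sum hT i (mem_lv.1 hx) (mem_lv.1 hz)).symm
  have h5 : ∀ e ∈ lv rk (i + 1), 2 * b e + 2 * c e ≤ b e * c e + 4 := by
    intro e he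
    have hb2 : 2 ≤ b e := below_two hT i hi1 (mem_lv.1 he)
    have hc2 : 2 ≤ c e := above_two hT i hi2 (mem_lv.1 he)
    obtain ⟨p, hp⟩ : ∃ p, b e = p + 2 := ⟨b e - 2, by omega⟩
    obtain ⟨q, hq⟩ : ∃ q, c e = q + 2 := ⟨c e - 2, by omega⟩
    rw [hp, hq]
    nlinarith [Nat.zero_le (p * q)]
  have h6 := sum_le_sum h5
  rw [sum_add_distrib, sum_add_distrib, ← mul_sum, ← mul_sum, ← h1, ← h2, ← h3, sum_const,
    smul_eq_mul] at h6
  omega

end Pool.Agent.Helper16.OG
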